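import Pool.Agent.Y221.BD.Defs
import Pool.Agent.W603.BP.Extn

/-!
Punctured discs, meromorphic images of affine spaces, and images of the multiplicative group in
projective varieties, given by their generic points.
-/

set_option autoImplicit false

namespace Pool.Agent.Y221.PD

open Pool.Agent.W602.GT Pool.Agent.W603.BP Metric

/-- `t ↦ (f t 0 : ... : f t M)` is a holomorphic map from the punctured unit disc to the projective
variety with generic point `x` (the variety of the forms which vanish at `x`) with an essential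
singularity: it does not extend to the disc. -/
structure EssentialDisc {M : ℕ} {L : Type} [Field L] [Algebra ℂ L] (x : Fin (M + 1) → L)
    (f : ℂ → Fin (M + 1) → ℂ) : Prop where
  hol : ∀ i, DifferentiableOn ℂ (fun t => f t i) (ball 0 1 \ {0})
  ne : ∀ t ∈ ball (0 : ℂ) 1 \ {0}, f t ≠ 0
  mem : ∀ G : MvPolynomial (Fin (M + 1)) ℂ, IsForm G → val x G = 0 →
    ∀ t ∈ ball (0 : ℂ) 1 \ {0}, MvPolynomial.eval (f t) G = 0
  ess : ¬ Extends f

/-- The holomorphic maps from the punctured disc with an essential singularity to the projective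
variety with generic point `x` lie in a proper closed subset (in the zero set of a form `R` which
does not vanish at the generic point). -/
def PseudoPicard {M : ℕ} {L : Type} [Field L] [Algebra ℂ L] (x : Fin (M + 1) → L) : Prop :=
  ∃ R : MvPolynomial (Fin (M + 1)) ℂ, IsForm R ∧ val x R ≠ 0 ∧
    ∀ f, EssentialDisc x f → ∀ t ∈ ball (0 : ℂ) 1 \ {0}, MvPolynomial.eval (f t) R = 0

/-- `h 0, ..., h M` are entire functions on `ℂ ^ g`, and `t ↦ (h 0 t : ... : h M t)` is a
nonconstant meromorphic map from `ℂ ^ g` to the projective variety with generic point `x`. -/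
structure MeroMap {M : ℕ} {L : Type} [Field L] [Algebra ℂ L] (x : Fin (M + 1) → L) (g : ℕ)
    (h : Fin (M + 1) → (Fin g → ℂ) → ℂ) : Prop where
  hol : ∀ i, Differentiable ℂ (h i)
  mem : ∀ G : MvPolynomial (Fin (M + 1)) ℂ, IsForm G → val x G = 0 →
    ∀ t, MvPolynomial.eval (fun i => h i t) G = 0
  nonconst : ∃ i j a b, h i a * h j b ≠ h j a * h i b

/-- The nonconstant meromorphic images of the spaces `ℂ ^ g`, for all `g`, lie in a proper closed
subset. -/
def PseudoAbelian {M : ℕ} {L : Type} [Field L] [Algebra ℂ L] (x : Fin (M + 1) → L) : Prop :=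
  ∃ R : MvPolynomial (Fin (M + 1)) ℂ, IsForm R ∧ val x R ≠ 0 ∧
    ∀ g h, MeroMap x g h → ∀ t, MvPolynomial.eval (fun i => h i t) R = 0

/-- `t ↦ (f 0 t : ... : f M t)` is a nonconstant morphism from the multiplicative group to the
projective variety with generic point `x`; the `f i` are polynomials without common zeros in
`ℂ \ {0}`. -/
structure TorusCurve {M : ℕ} {L : Type} [Field L] [Algebra ℂ L] (x : Fin (M + 1) → L)
    (f : Fin (M + 1) → Polynomial ℂ) : Prop where
  ne : ∀ t, t ≠ 0 → ∃ i, (f i).eval t ≠ 0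
  mem : ∀ G : MvPolynomial (Fin (M + 1)) ℂ, IsForm G → val x G = 0 →
    ∀ t, t ≠ 0 → MvPolynomial.eval (fun i => (f i).eval t) G = 0
  nonconst : ∃ i j a b, a ≠ 0 ∧ b ≠ 0 ∧
    (f i).eval a * (f j).eval b ≠ (f j).eval a * (f i).eval b

/-- The images of the nonconstant morphisms from the multiplicative group lie in a proper closed
subset. -/
def PseudoTorus {M : ℕ} {L : Type} [Field L] [Algebra ℂ L] (x : Fin (M + 1) → L) : Prop :=
  ∃ R : MvPolynomial (Fin (M + 1)) ℂ, IsForm R ∧ val x R ≠ 0 ∧
    ∀ f, TorusCurve x f → ∀ t, t ≠ 0 → MvPolynomial.eval (fun i => (f i).eval t) R = 0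

end Pool.Agent.Y221.PD
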