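import Pool.Agent.Y221.AP.An
import Pool.Agent.Y221.BD.Str
import Pool.Agent.Y221.PD.Defs
import Pool.Agent.W603.BP.PS

/-!
Punctured discs in the varieties which are dominated by a closed subvariety of a system of high
powers without motions.
-/

set_option autoImplicit false
set_option maxHeartbeats 400000
set_option linter.overlappingInstances false
set_option linter.unusedSectionVars false

open FF IntermediateField Filter

namespace Pool.Agent.Y221.PD

open Pool.Agent.W602.GT Pool.Agent.TH466.QG Pool.Agent.W603.BP Metric Topology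
open Pool.Agent.Y221.AP
open Pool.Agent.Y221.AB (NB)
open Pool.Agent.Y221.BD (LinMv WtMv)

/-- values of forms at the point of the field of meromorphic functions -/
theorem val_cl {M : ℕ} {f : Fin (M + 1) → ℂ → ℂ} (hf : ∀ i, MeromorphicOn (f i) Om)
    (G : MvPolynomial (Fin (M + 1)) ℂ) :
    val (fun i => cl (f i) (hf i)) G =
      cl (fun t => MvPolynomial.eval (fun i => f i t) G) (mero_eval hf G) := by
  unfold Pool.Agent.W602.GT.val
  let u : Fin (M + 1) → MerS := fun i => ⟨f i, hf i⟩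
  have h1 : ((Ideal.Quotient.mkₐ ℂ MJ).comp (MvPolynomial.aeval u)) =
      MvPolynomial.aeval (fun i => cl (f i) (hf i)) := by
    apply MvPolynomial.algHom_ext
    intro i
    rw [AlgHom.comp_apply, MvPolynomial.aeval_X, MvPolynomial.aeval_X]
    rfl
  rw [← h1, AlgHom.comp_apply]
  change Ideal.Quotient.mk MJ _ = Ideal.Quotient.mk MJ _
  congr 1
  apply Subtype.ext
  funext t
  have h2 : (evS t).comp (MvPolynomial.aeval u) = MvPolynomial.aeval (fun i => f i t) := by
    apply MvPolynomial.algHom_ext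
    intro i
    rw [AlgHom.comp_apply, MvPolynomial.aeval_X, MvPolynomial.aeval_X]
    rfl
  have h3 := DFunLike.congr_fun h2 G
  rw [AlgHom.comp_apply] at h3
  exact h3.trans (by rw [MvPolynomial.aeval_eq_eval])

/-- the coordinate field of an algebraic point is algebraic -/
theorem alg_coords {n : ℕ} {E : Type} [Field E] [Algebra MK E] [Algebra ℂ E]
    [IsScalarTower ℂ MK E] {i0 : Fin (n + 1)} {y : Fin (n + 1) → E} (hi0 : y i0 ≠ 0)
    (h : Alg0 i0 y) {x : E} (hx : IsAlgebraic (coords ℂ y) x) : IsAlgebraic MI x := by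
  have hle : coords ℂ y ≤ (algebraicClosure MI E).restrictScalars ℂ := by
    unfold Pool.Agent.W602.GT.coords
    rw [IntermediateField.adjoin_le_iff]
    rintro _ ⟨i, j, hj, rfl⟩
    change y i / y j ∈ algebraicClosure MI E
    rw [mem_algebraicClosure_iff]
    have h1 : y i / y j = (y i / y i0) * (y j / y i0)⁻¹ := by
      field_simp
    rw [h1]
    exact (h i).mul (h j).inv
  have h1 : IsAlgebraic (algebraicClosure MI E) x := by
    obtain ⟨p, hp, hpx⟩ := hx
    let φ : coords ℂ y →+* algebraicClosure MI E :=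
      (IntermediateField.inclusion hle).toRingHom
    refine ⟨p.map φ, ?_, ?_⟩
    · rw [Ne, Polynomial.map_eq_zero]
      exact hp
    · rw [← hpx, Polynomial.aeval_def, Polynomial.eval₂_map, Polynomial.aeval_def]
      rfl
  exact h1.restrictScalars MI

/-- **Punctured discs.** -/
theorem picard_main {n : ℕ} {ι : Type}
    [Finite ι] {F : ι → MvPolynomial (Fin (n + 1)) ℂ} {s N r : ℕ} (hF : HighPowers s N F)
    (hN : NB r s ≤ N) {K : Type} [Field K] [Algebra ℂ K] {w : ℕ} {y : Fin (n + 1) → K}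
    (hy : SubVar F K w y) (hL : ¬ LinMv F y) (hW : ¬ WtMv F y)
    {K' L : Type} [Field K'] [Field L] [Algebra ℂ K'] [Algebra ℂ L] [Algebra K K']
    [Algebra L K'] [IsScalarTower ℂ K K'] [IsScalarTower ℂ L K'] [Algebra.IsAlgebraic K K']
    [FiniteDimensional L K'] (hr : Module.finrank L K' ≤ r) {M : ℕ} {x : Fin (M + 1) → L}
    (hx : x ≠ 0) (hgen : coords ℂ x = ⊤) : PseudoPicard x := by
  classical
  obtain ⟨i1, hi1'⟩ := Function.ne_iff.1 hx
  have hi1 : x i1 ≠ 0 := hi1'
  obtain ⟨i0, hi0'⟩ := Function.ne_iff.1 hy.ne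
  have hi0 : y i0 ≠ 0 := hi0'
  obtain ⟨Θ1, hΘ1, hopen⟩ := open_ana hF hN hy.mem hi0 hL hW
  obtain ⟨Θ2, hΘ2, halgs⟩ := alg_spec (K' := K') hy.gen hi0
    (fun m => algebraMap L K' (x m / x i1))
  obtain ⟨H, hH, hspread⟩ := spread (K' := K') (adjoin_norm hgen hi1)
    (Θ := algebraMap K K' '' (Θ1 ∪ (Θ2 ∪ (Set.range y ∪ {(y i0)⁻¹}))))
    ((hΘ1.union (hΘ2.union ((Set.finite_range y).union (Set.finite_singleton _)))).image _)
  refine ⟨MvPolynomial.X i1 * hz i1 H, ?_, ?_, ?_⟩
  · obtain ⟨d, hd⟩ := hz_form i1 H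
    exact ⟨1 + d, (MvPolynomial.isHomogeneous_X ℂ i1).mul hd⟩
  · change MvPolynomial.aeval x _ ≠ 0
    rw [map_mul, MvPolynomial.aeval_X]
    refine mul_ne_zero hi1 ?_
    change val x _ ≠ 0
    rw [val_hz H hi1]
    exact mul_ne_zero (pow_ne_zero _ hi1) hH
  intro f hf t0 ht0
  by_contra hft
  have hfan : ∀ i, AnalyticOnNhd ℂ (fun w => f w i) (PB 1) := by
    intro i w hw
    exact (hf.hol i).analyticAt (disc_open.mem_nhds (mem_disc.mpr hw))
  have hinvPB : ∀ {z : ℂ}, z ∈ Om → z⁻¹ ∈ PB 1 := by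
    intro z hz
    exact inv_mem_PB one_pos (by rwa [inv_one])
  have hPBinv : ∀ {w : ℂ}, w ∈ PB 1 → w⁻¹ ∈ Om := by
    intro w hw
    have := inv_mem_Ext hw
    rwa [inv_one] at this
  have hOm0 : ∀ {z : ℂ}, z ∈ Om → z ≠ 0 := by
    intro z hz h0
    have h1 : (1 : ℝ) < ‖z‖ := hz
    rw [h0, norm_zero] at h1
    linarith
  obtain ⟨f', hf'⟩ : ∃ f' : Fin (M + 1) → ℂ → ℂ, ∀ i z, f' i z = f z⁻¹ i := ⟨_, fun _ _ => rfl⟩
  have hf'an : ∀ i, ∀ z ∈ Om, AnalyticAt ℂ (f' i) z := by
    intro i z hz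
    have h1 : f' i = (fun w => f w i) ∘ fun z => z⁻¹ := by
      funext v
      exact hf' i v
    rw [h1]
    exact AnalyticAt.comp (hfan i _ (hinvPB hz)) (analyticAt_inv (hOm0 hz))
  have hmer : ∀ i, MeromorphicOn (f' i) Om := fun i z hz => (hf'an i z hz).meromorphicAt
  obtain ⟨z, hzdef⟩ : ∃ z : Fin (M + 1) → MK, z = fun i => cl (f' i) (hmer i) := ⟨_, rfl⟩
  have hcont : ∀ G : MvPolynomial (Fin (M + 1)) ℂ, ∀ t ∈ Om,
      ContinuousAt (fun t => MvPolynomial.eval (fun i => f' i t) G) t := fun G t ht =>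
    (MvPolynomial.continuous_eval G).continuousAt.comp
      (continuousAt_pi.2 fun i => (hf'an i t ht).continuousAt)
  have hvz : ∀ G, val z G = 0 ↔ ∀ t ∈ Om, MvPolynomial.eval (fun i => f' i t) G = 0 := by
    intro G
    rw [hzdef, val_cl hmer G, cl_eq_zero]
    constructor
    · intro h t ht
      exact eq_of_cod (g := fun _ => 0) h ht (hcont G t ht) continuousAt_const
    · intro h
      filter_upwards [cod_Om] with t ht
      exact h t ht
  have hevf : ∀ (G : MvPolynomial (Fin (M + 1)) ℂ) (t : ℂ),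
      MvPolynomial.eval (fun i => f' i t) G = MvPolynomial.eval (f t⁻¹) G := by
    intro G t
    have h1 : (fun i => f' i t) = f t⁻¹ := by
      funext i
      rw [hf']
    rw [h1]
  have hzR : val z (MvPolynomial.X i1 * hz i1 H) ≠ 0 := by
    intro h0
    apply hft
    have h1 := (hvz _).1 h0 t0⁻¹ (hPBinv (mem_disc.1 ht0))
    rw [hevf, inv_inv] at h1
    exact h1
  change MvPolynomial.aeval z _ ≠ 0 at hzR
  rw [map_mul, MvPolynomial.aeval_X] at hzR
  have hz1 : z i1 ≠ 0 := left_ne_zero_of_mul hzR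
  have hzH : MvPolynomial.aeval (fun i => z i / z i1) H ≠ 0 := by
    have h1 : val z (Pool.Agent.TH466.QG.hz i1 H) ≠ 0 := right_ne_zero_of_mul hzR
    rw [val_hz H hz1] at h1
    exact right_ne_zero_of_mul h1
  have hsp : ∀ G : MvPolynomial (Fin (M + 1)) ℂ,
      MvPolynomial.aeval (fun i => x i / x i1) G = 0 →
      MvPolynomial.aeval (fun i => z i / z i1) G = 0 := by
    intro G hG
    have h1 : val x (Pool.Agent.TH466.QG.hz i1 G) = 0 := by
      rw [val_hz G hi1, hG, mul_zero]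
    have h2 : val z (Pool.Agent.TH466.QG.hz i1 G) = 0 := by
      rw [hvz]
      intro t ht
      rw [hevf]
      exact hf.mem _ (hz_form i1 G) h1 _ (mem_disc.2 (hinvPB ht))
    rw [val_hz G hz1] at h2
    exact (mul_eq_zero.1 h2).resolve_left (pow_ne_zero _ hz1)
  obtain ⟨K'', i1', i2', i3', i4', i5', hrk, S, hSx, hSΘ⟩ := hspread MK
    (fun i => z i / z i1) hsp hzH
  have hSy : ∀ i, ∃ t, S.T (algebraMap K K' (y i)) t := fun i =>
    hSΘ _ ⟨y i, Or.inr (Or.inr (Or.inl ⟨i, rfl⟩)), rfl⟩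
  choose y' hy' using hSy
  have halg0 : Alg0 i0 y' := hopen K'' (hrk.trans hr) (S.res (K0 := K))
    (fun ϑ hϑ => hSΘ _ ⟨ϑ, Or.inl hϑ, rfl⟩) y' hy'
  have hi0y : y' i0 ≠ 0 := (S.res (K0 := K)).ne_zero (hy' i0)
    (hSΘ _ ⟨(y i0)⁻¹, Or.inr (Or.inr (Or.inr rfl)), rfl⟩) hi0
  have hall : ∀ m, MInf (z m / z i1) := by
    intro m
    have h1 := halgs K'' S (fun ϑ hϑ => hSΘ _ ⟨ϑ, Or.inr (Or.inl hϑ), rfl⟩) y' hy'
      (fun m => algebraMap MK K'' (z m / z i1)) hSx m
    have h2 : IsAlgebraic MI (algebraMap MK K'' (z m / z i1)) := alg_coords hi0y halg0 h1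
    exact minf_of_alg ((isAlgebraic_algebraMap_iff (algebraMap MK K'').injective).1 h2)
  apply hf.ess
  refine extends_of f hfan (fun w hw => hf.ne w (mem_disc.2 hw)) fun j k hj hk => ?_
  have hzk : z k ≠ 0 := by
    intro h0
    apply hk
    rw [hzdef] at h0
    have h1 := cl_eq_zero.1 h0
    filter_upwards [PB_mem one_pos] with w hw
    have h2 := eq_of_cod (g := fun _ => 0) h1 (hPBinv hw) (hf'an k _ (hPBinv hw)).continuousAt
      continuousAt_const
    rw [hf', inv_inv] at h2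
    exact h2
  have hjk : MInf (z j / z k) := by
    have h1 : z j / z k = (z j / z i1) * (z k / z i1)⁻¹ := by
      field_simp
    rw [h1]
    exact (hall j).mul (hall k).inv
  refine ⟨fun w => Fn (z j / z k) w⁻¹, hjk, ?_⟩
  have h1 : cl (f' j) (hmer j) = cl (fun t => Fn (z j / z k) t * f' k t)
      ((Fn_mero _).mul (hmer k)) := by
    have h2 : cl (f' j) (hmer j) = z j := by rw [hzdef]
    have h3 : cl (f' k) (hmer k) = z k := by rw [hzdef]
    have h4 : cl (fun t => Fn (z j / z k) t * f' k t) ((Fn_mero _).mul (hmer k)) =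
        cl (Fn (z j / z k)) (Fn_mero _) * cl (f' k) (hmer k) := rfl
    rw [h4, h2, h3, cl_Fn, div_mul_cancel₀ _ hzk]
  rw [cl_eq] at h1
  filter_upwards [hjk.reg, PB_mem one_pos] with w hw1 hw2
  have hwO := hPBinv hw2
  have h2 := eq_of_cod (f := f' j) (g := fun t => Fn (z j / z k) t * f' k t) h1 hwO
    (hf'an j _ hwO).continuousAt (hw1.continuousAt.mul (hf'an k _ hwO).continuousAt)
  rw [hf', hf', inv_inv] at h2
  exact h2

end Pool.Agent.Y221.PD
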